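import Pool.Agent.N167.SG.Stm2
import Pool.Agent.N769.TR.Gal
import Pool.Agent.N247.TR_Gen

/-!
# SG/8: energy growth and dissipation of Galerkin solutions (for helper167)
-/

set_option autoImplicit false

namespace Pool.Agent.N966.SG

open Set Pool.Agent.N167.TR Pool.Agent.N769.TR Pool.Agent.N167.SG

/-- a bound for the derivative bounds the growth -/
theorem growth {g g' : ℝ → ℝ} {T c : ℝ} (hT : 0 ≤ T)
    (hg : ∀ t ∈ Icc (0 : ℝ) T, HasDerivWithinAt g (g' t) (Icc 0 T) t)
    (hc : ∀ t ∈ Icc (0 : ℝ) T, g' t ≤ c) : g T ≤ g 0 + c * T := by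
  have h1 : MonotoneOn (fun t => c * t - g t) (Icc 0 T) := by
    refine monotoneOn_of_hasDerivWithinAt_nonneg (f' := fun t => c * 1 - g' t) (convex_Icc 0 T) ?_ ?_ ?_
    · exact (continuous_const.mul continuous_id).continuousOn.sub
        fun t ht => (hg t ht).continuousWithinAt
    · intro t ht
      have ht' := interior_subset ht
      exact (((hasDerivWithinAt_id t (interior (Icc 0 T))).const_mul c).sub
        ((hg t ht').mono interior_subset))
    · intro t ht
      have := hc t (interior_subset ht)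
      simp only [mul_one, sub_nonneg]
      exact this
  have h2 := h1 ⟨le_rfl, hT⟩ ⟨hT, le_rfl⟩ hT
  simp only [mul_zero, zero_sub] at h2
  linarith

theorem t_diss : S_diss := by
  have hg : S_gen := Pool.Agent.N247.TR.main
  intro M B D ν f X E G N T hB hD hν hT hf hX0 hsol hfG hXE
  set e : ℝ → ℝ := fun t => ∑ n ∈ Finset.range (N + 1), gen n (fun j => X j t ^ 2) with he
  set S : ℝ → ℝ := fun t => ∑ n ∈ Finset.range (N + 1), D ^ n * gen n (fun j => X j t ^ 2) with hS
  set e' : ℝ → ℝ := fun t => ∑ n ∈ Finset.range (N + 1), gen n (fun j => 2 * (X j t *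
        rhs B D ν (fun m => f m t) (fun m => X m t) j)) with he'
  have hgen0 : ∀ t n, 0 ≤ gen n (fun j => X j t ^ 2) := fun t n => gen_nonneg hg n fun j _ => sq_nonneg _
  have he0 : ∀ t, 0 ≤ e t := fun t => Finset.sum_nonneg fun n _ => hgen0 t n
  have hder : ∀ t ∈ Icc (0 : ℝ) T, HasDerivWithinAt e (e' t) (Icc 0 T) t := by
    intro t ht
    have h1 : ∀ n ∈ Finset.range (N + 1), HasDerivWithinAt
        (fun s => gen n (fun j => X j s ^ 2)) (gen n (fun j => 2 * (X j t *
          rhs B D ν (fun m => f m t) (fun m => X m t) j))) (Icc 0 T) t := by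
      intro n hn
      have hn' : n ≤ N := Nat.lt_succ_iff.1 (Finset.mem_range.1 hn)
      refine (hg M).2.2.2.2.2.1 n (fun j s => X j s ^ 2) (fun j s => 2 * (X j s *
          rhs B D ν (fun m => f m s) (fun m => X m s) j)) (Icc 0 T) t
          fun j hj => ?_
      have h2 := (hsol j (by omega) t ht).pow 2
      refine h2.congr_deriv ?_
      push_cast
      ring
    exact HasDerivWithinAt.fun_sum h1
  have hbd : ∀ t ∈ Icc (0 : ℝ) T, e' t ≤ E + G - 2 * ν * S t := by
    intro t ht
    have h2 : e' t = 2 * ∑ n ∈ Finset.range (N + 1), gen n (fun j => X j t *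
        rhs B D ν (fun m => f m t) (fun m => X m t) j) := by
      rw [he', Finset.mul_sum]
      exact Finset.sum_congr rfl fun n _ => gen_mul hg n 2 _
    have h3 := gen_energy hg B D ν (fun m => f m t) (fun m => X m t) N
    have h4 : gen N (fun j => X j t ^ 2 * ∑ k : Fin M, X (k :: j) t) = 0 := by
      have h5 : gen N (fun j => X j t ^ 2 * ∑ k : Fin M, X (k :: j) t) =
          gen N (fun _ : List (Fin M) => (0 : ℝ)) := by
        refine gen_congr hg _ fun j hj => ?_
        rw [Finset.sum_eq_zero fun k _ => hX0 (k :: j) (by rw [List.length_cons]; omega) t,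
          mul_zero]
      rw [h5, (hg M).2.2.2.2.1, mul_zero]
    rw [h4, mul_zero, sub_zero] at h3
    rw [h2, h3, Finset.mul_sum]
    have h6 : ∀ n ∈ Finset.range (N + 1),
        2 * (gen n (fun j => X j t * f j t) - ν * D ^ n * gen n (fun j => X j t ^ 2)) ≤
          gen n (fun j => f j t ^ 2) + gen n (fun j => X j t ^ 2) -
            2 * ν * (D ^ n * gen n (fun j => X j t ^ 2)) := by
      intro n _
      have h7 : gen n (fun j => 2 * (X j t * f j t)) ≤ gen n (fun j => f j t ^ 2 + X j t ^ 2) := by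
        refine gen_mono hg n fun j _ => ?_
        nlinarith [sq_nonneg (f j t - X j t)]
      rw [gen_add hg, gen_mul hg] at h7
      linarith
    refine (Finset.sum_le_sum h6).trans ?_
    rw [Finset.sum_sub_distrib, Finset.sum_add_distrib, ← Finset.mul_sum]
    have h8 := hfG t ht
    have h9 := hXE t ht
    linarith
  have hS0 : ∀ t, 0 ≤ S t := fun t => Finset.sum_nonneg fun n _ =>
    mul_nonneg (pow_nonneg (by linarith) _) (hgen0 t n)
  have hsub : ∀ τ, 0 ≤ τ → τ ≤ T → ∀ c : ℝ, (∀ t ∈ Icc (0 : ℝ) τ, E + G - 2 * ν * S t ≤ c) →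
      e τ ≤ e 0 + c * τ := by
    intro τ h0 hτ c hc
    refine growth h0 (fun t ht => (hder t ⟨ht.1, ht.2.trans hτ⟩).mono (Icc_subset_Icc_right hτ))
      fun t ht => ?_
    exact (hbd t ⟨ht.1, ht.2.trans hτ⟩).trans (hc t ht)
  refine ⟨fun t ht => ?_, fun τ hτ0 hτT => ?_⟩
  · refine hsub t ht.1 ht.2 (E + G) fun s _ => ?_
    have := mul_nonneg (mul_nonneg zero_le_two hν.le) (hS0 s)
    linarith
  · by_contra hcon
    push Not at hcon
    set C : ℝ := (E + (E + G) * τ) / (2 * ν * τ) with hC
    have h1 : ∀ t ∈ Icc (0 : ℝ) τ, C < S t := hcon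
    have hden : 0 < 2 * ν * τ := by positivity
    have hCm : 2 * ν * τ * C = E + (E + G) * τ := by
      rw [hC]
      field_simp
    have h2 := hsub τ hτ0.le hτT (E + G - 2 * ν * C) fun t ht => by
      have := mul_le_mul_of_nonneg_left (h1 t ht).le (mul_nonneg zero_le_two hν.le)
      linarith
    have h3 : e 0 ≤ E := hXE 0 ⟨le_rfl, hT⟩
    have h4 : e τ ≤ 0 := by
      have : e 0 + (E + G - 2 * ν * C) * τ = e 0 + (E + G) * τ - 2 * ν * τ * C := by ring
      linarith
    have h5 : e τ = 0 := le_antisymm h4 (he0 τ)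
    have h6 := (Finset.sum_eq_zero_iff_of_nonneg (fun n _ => hgen0 τ n)).1 h5
    have h7 : S τ = 0 := by
      rw [hS]
      exact Finset.sum_eq_zero fun n hn => by rw [h6 n hn, mul_zero]
    have h8 : 0 ≤ G := (Finset.sum_nonneg fun n _ => gen_nonneg hg n fun j _ => sq_nonneg _).trans
      (hfG 0 ⟨le_rfl, hT⟩)
    have h9 : 0 ≤ E := (he0 0).trans h3
    have h10 : 0 ≤ C := by positivity
    have h11 := h1 τ ⟨hτ0.le, le_rfl⟩
    rw [h7] at h11
    exact absurd h11 (not_lt.2 h10)

end Pool.Agent.N966.SG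

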