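import Pool.Agent.N167.SG.Stm2
import Pool.Agent.N402.LH.LH1
import Pool.Agent.N167.TR.Main

/-!
# LH/3: Leray-Hopf property of the limit (for helper167)
-/

set_option autoImplicit false

namespace Pool.Agent.N966.SG

open Set Filter Topology MeasureTheory
open Pool.Agent.N167.TR Pool.Agent.N167.SG
open Pool.Agent.N402.LH (summ)

theorem t_LH3 : S_LH3 := by
  intro M B D ν C F f x X hM hB hD hν hF hf hfF hX hxs hsm hE
  have hF0 : ∀ n, 0 ≤ F n := by
    intro n
    have := hfF (List.replicate n ⟨0, hM⟩) 0 le_rfl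
    rw [List.length_replicate] at this
    exact (abs_nonneg _).trans this
  have hc : ∀ j, ContinuousOn (X j) (Ici 0) := fun j t ht => (hX.2 j t ht).continuousWithinAt
  refine ⟨hX, ?_, ?_⟩
  · intro T
    refine ⟨∑' j, x j ^ 2 + |C| * |T|, fun t ht s => ?_⟩
    refine (hE t ht.1 s).trans (add_le_add le_rfl ?_)
    calc C * t ≤ |C| * t := mul_le_mul_of_nonneg_right (le_abs_self C) ht.1
      _ ≤ |C| * |T| := mul_le_mul_of_nonneg_left (ht.2.trans (le_abs_self T)) (abs_nonneg C)
  · intro t ht s
    rcases ht.eq_or_lt with rfl | ht0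
    · simp only [intervalIntegral.integral_same, mul_zero, add_zero]
      have := hE 0 le_rfl s
      rwa [mul_zero, add_zero] at this
    set g : ℝ → ℝ := fun r => ∑' j, f j r * X j r with hg
    set K : ℝ := ∑' j, x j ^ 2 + |C| * t with hK
    have hXK : ∀ j, ∀ r ∈ Icc (0 : ℝ) t, |X j r| ≤ Real.sqrt K := by
      intro j r hr
      apply Real.abs_le_sqrt
      have h1 := hE r hr.1 {j}
      rw [Finset.sum_singleton] at h1
      refine h1.trans (add_le_add le_rfl ?_)
      calc C * r ≤ |C| * r := mul_le_mul_of_nonneg_right (le_abs_self C) hr.1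
        _ ≤ |C| * t := mul_le_mul_of_nonneg_left hr.2 (abs_nonneg C)
    have hgc : ContinuousOn g (Icc 0 t) := by
      refine continuousOn_tsum (u := fun j : List (Fin M) => F j.length * Real.sqrt K)
        (fun j => ((hf j).mul (hc j)).mono Icc_subset_Ici_self)
        ((summ hF hF0 hM).mul_right _) ?_
      intro j r hr
      rw [norm_mul]
      exact mul_le_mul (hfF j r hr.1) (hXK j r hr) (abs_nonneg _) (hF0 _)
    have hprim : ∀ φ : ℝ → ℝ, ContinuousOn φ (Icc 0 t) →
        ContinuousWithinAt (fun τ => ∫ r in τ..t, φ r) (Ioo 0 t) 0 := by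
      intro φ hφ
      have h1 : IntegrableOn φ (uIcc 0 t) := by
        rw [uIcc_of_le ht]
        exact hφ.integrableOn_Icc
      have h2 := intervalIntegral.continuousOn_primitive_interval_left h1
      rw [uIcc_of_le ht] at h2
      exact (h2 0 ⟨le_rfl, ht⟩).mono Ioo_subset_Icc_self
    have key : ∀ τ ∈ Ioo (0 : ℝ) t,
        ∑ j ∈ s, (X j t ^ 2 + 2 * ν * D ^ j.length * ∫ r in τ..t, X j r ^ 2) ≤
          ∑' j, x j ^ 2 + C * τ + 2 * ∫ r in τ..t, g r := by
      intro τ hτ
      obtain ⟨a, ha, hab⟩ := hsm τ hτ.1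
      have hsh := shift hX hτ.1.le
      have hLH := (N402.LH.lh1 M B D ν F a (fun j t => f j (τ + t)) (fun j => X j τ)
        (fun j t => X j (τ + t)) hM hB hD hν hF
        (fun j => (hf j).comp (by fun_prop) (fun r (hr : 0 ≤ r) => by
          show 0 ≤ τ + r
          linarith [hτ.1]))
        (fun j r hr => hfF j (τ + r) (by linarith [hτ.1])) hsh ha
        (fun j r hr => hab j (τ + r) (by linarith))).1.2.2 (t - τ) (by linarith [hτ.2]) s
      have e1 : ∀ j : List (Fin M), ∫ r in (0 : ℝ)..(t - τ), X j (τ + r) ^ 2 =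
          ∫ r in τ..t, X j r ^ 2 := by
        intro j
        have := intervalIntegral.integral_comp_add_left (a := 0) (b := t - τ)
          (fun r => X j r ^ 2) τ
        rw [this, add_zero, add_sub_cancel]
      have e2 : ∫ r in (0 : ℝ)..(t - τ), ∑' j, f j (τ + r) * X j (τ + r) =
          ∫ r in τ..t, g r := by
        have := intervalIntegral.integral_comp_add_left (a := 0) (b := t - τ) g τ
        rw [add_zero, add_sub_cancel] at this
        exact this
      simp only [e1, e2, add_sub_cancel] at hLH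
      have h3 : ∑' j, X j τ ^ 2 ≤ ∑' j, x j ^ 2 + C * τ :=
        Real.tsum_le_of_sum_le (fun j => sq_nonneg _) (fun u => hE τ hτ.1.le u)
      linarith
    have hcl : (0 : ℝ) ∈ closure (Ioo (0 : ℝ) t) := by
      rw [closure_Ioo ht0.ne]
      exact ⟨le_rfl, ht⟩
    have hfin := ContinuousWithinAt.closure_le hcl
      (f := fun τ => ∑ j ∈ s, (X j t ^ 2 + 2 * ν * D ^ j.length * ∫ r in τ..t, X j r ^ 2))
      (g := fun τ => ∑' j, x j ^ 2 + C * τ + 2 * ∫ r in τ..t, g r) ?_ ?_ key
    · simp only [mul_zero, add_zero] at hfin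
      exact hfin
    · refine tendsto_finsetSum _ fun j _ => ?_
      exact (continuousWithinAt_const.add (continuousWithinAt_const.mul
        (hprim (fun r => X j r ^ 2) (((hc j).pow 2).mono Icc_subset_Ici_self))))
    · exact ((continuousWithinAt_const.add (continuousWithinAt_const.mul
        continuousWithinAt_id)).add (continuousWithinAt_const.mul (hprim g hgc)))

end Pool.Agent.N966.SG

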